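import Pool.Agent.R701.LV.Basic

/-!
# Liouville numbers, and fields of approximable numbers of large transcendence degree

The second part is taken from `Pool/Agent/R347/LF/Ex.lean` (helper347), for rational approximations.
-/

set_option autoImplicit false

namespace Pool.Agent.R701.LV

/-- every Liouville number is in one of the fields -/
theorem liouville_apr {ξ : ℝ} (hξ : Liouville ξ) : ∃ q : ℕ → ℕ, (∀ k, 2 ≤ q k) ∧ Apr q ξ := by
  choose a b hb1 hne hlt using hξ
  set q : ℕ → ℕ := fun k => (b k).natAbs with hqdef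
  have hqb : ∀ k, ((q k : ℕ) : ℤ) = b k := fun k => Int.natAbs_of_nonneg (by have := hb1 k; omega)
  have hqbr : ∀ k, ((q k : ℕ) : ℝ) = (b k : ℝ) := fun k => by
    rw [← hqb k]; push_cast; rfl
  have hq2 : ∀ k, 2 ≤ q k := fun k => by have := hb1 k; have := hqb k; omega
  refine ⟨q, hq2, 1, fun κ => ⟨κ, fun k hk => ⟨a k, q k, ?_, ?_, ?_⟩⟩⟩
  · have := hq2 k
    omega
  · rw [pow_one]
  · rw [hqbr]
    refine (hlt k).le.trans ?_
    have h1 : (1 : ℝ) ≤ b k := by
      have := hb1 k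
      have h : (1 : ℤ) ≤ b k := by omega
      exact_mod_cast h
    rw [one_div]
    exact inv_anti₀ (by positivity) (pow_le_pow_right₀ h1 hk)

/-- the sequence of exponents -/
def eL (k : ℕ) : ℕ := (k + 2).factorial

theorem eL_succ (k : ℕ) : eL (k + 1) = (k + 3) * eL k := by
  rw [eL, eL, Nat.factorial_succ]

theorem eL_two (k : ℕ) : 2 ≤ eL k := by
  rw [eL]
  exact (by norm_num [Nat.factorial] : 2 ≤ (2 : ℕ).factorial).trans (Nat.factorial_le (by omega))

theorem eL_step (k : ℕ) : eL k + 2 ≤ eL (k + 1) := by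
  rw [eL_succ]
  have := eL_two k
  nlinarith

theorem eL_pos (k : ℕ) : 1 ≤ eL k := by
  have := eL_two k
  omega

theorem eL_add (k j : ℕ) : eL k + j ≤ eL (k + j) := by
  induction j with
  | zero => simp
  | succ j ih =>
    have h1 := eL_step (k + j)
    have h2 : k + (j + 1) = k + j + 1 := rfl
    rw [h2]
    omega

/-- the sequence of denominators -/
def qL (k : ℕ) : ℕ := 2 ^ eL k

theorem two_le_qL (k : ℕ) : 2 ≤ qL k := by
  rw [qL]
  calc 2 = 2 ^ 1 := by norm_num
    _ ≤ 2 ^ eL k := Nat.pow_le_pow_right (by norm_num) (eL_pos k)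

/-- the terms of the series -/
noncomputable def trL (A : Set ℕ) (k : ℕ) : ℝ := by
  classical exact if k ∈ A then (1 / 2 : ℝ) ^ eL k else 0

theorem trL_of_mem {A : Set ℕ} {k : ℕ} (h : k ∈ A) : trL A k = (1 / 2 : ℝ) ^ eL k := by
  rw [trL, if_pos h]

theorem trL_of_notMem {A : Set ℕ} {k : ℕ} (h : k ∉ A) : trL A k = 0 := by
  rw [trL, if_neg h]

theorem trL_nonneg (A : Set ℕ) (k : ℕ) : 0 ≤ trL A k := by
  by_cases h : k ∈ A
  · rw [trL_of_mem h]; positivity
  · rw [trL_of_notMem h]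

theorem trL_le (A : Set ℕ) (k : ℕ) : trL A k ≤ (1 / 2 : ℝ) ^ eL k := by
  by_cases h : k ∈ A
  · rw [trL_of_mem h]
  · rw [trL_of_notMem h]; positivity

theorem trL_le' (A : Set ℕ) (k j : ℕ) : trL A (j + k) ≤ (1 / 2 : ℝ) ^ eL k * (1 / 2) ^ j := by
  refine (trL_le A _).trans ?_
  rw [← pow_add, add_comm j k]
  exact pow_le_pow_of_le_one (by norm_num) (by norm_num) (eL_add k j)

theorem trL_summable' (A : Set ℕ) (k : ℕ) : Summable (fun j => trL A (j + k)) :=
  Summable.of_nonneg_of_le (fun j => trL_nonneg A _) (fun j => trL_le' A k j)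
    (summable_geometric_two.mul_left _)

theorem trL_summable (A : Set ℕ) : Summable (trL A) := trL_summable' A 0

theorem tailL_le (A : Set ℕ) (k : ℕ) : ∑' j, trL A (j + k) ≤ 2 * (1 / 2 : ℝ) ^ eL k := by
  have h1 := (trL_summable' A k).tsum_le_tsum (trL_le' A k)
    (summable_geometric_two.mul_left _)
  rw [tsum_mul_left, tsum_geometric_two] at h1
  linarith

theorem tailL_nonneg (A : Set ℕ) (k : ℕ) : 0 ≤ ∑' j, trL A (j + k) :=
  tsum_nonneg fun _ => trL_nonneg A _

/-- the sum of the numbers `1 / qL k` over `k` in `A` -/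
noncomputable def xiL (A : Set ℕ) : ℝ := ∑' k, trL A k

theorem xiL_split (A : Set ℕ) (k : ℕ) :
    xiL A = ∑ j ∈ Finset.range k, trL A j + ∑' j, trL A (j + k) :=
  ((trL_summable A).sum_add_tsum_nat_add k).symm

theorem xiL_lt {A B : Set ℕ} (k : ℕ) (hk : ∀ j < k, j ∈ A ↔ j ∈ B) (hA : k ∈ A) (hB : k ∉ B) :
    xiL B < xiL A := by
  rw [xiL_split A (k + 1), xiL_split B (k + 1), Finset.sum_range_succ, Finset.sum_range_succ]
  have h1 : ∑ j ∈ Finset.range k, trL A j = ∑ j ∈ Finset.range k, trL B j := by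
    refine Finset.sum_congr rfl fun j hj => ?_
    have hj' := hk j (Finset.mem_range.1 hj)
    by_cases h : j ∈ A
    · rw [trL_of_mem h, trL_of_mem (hj'.1 h)]
    · rw [trL_of_notMem h, trL_of_notMem (fun hb => h (hj'.2 hb))]
  rw [h1, trL_of_mem hA, trL_of_notMem hB]
  have h2 := tailL_le B (k + 1)
  have h3 := tailL_nonneg A (k + 1)
  have h4 : (1 / 2 : ℝ) ^ eL (k + 1) ≤ (1 / 2 : ℝ) ^ (eL k + 2) :=
    pow_le_pow_of_le_one (by norm_num) (by norm_num) (eL_step k)
  have h5 : (1 / 2 : ℝ) ^ (eL k + 2) = (1 / 2 : ℝ) ^ eL k * (1 / 4) := by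
    rw [pow_add]; norm_num
  have h6 : (0 : ℝ) < (1 / 2 : ℝ) ^ eL k := by positivity
  linarith

theorem xiL_injective : Function.Injective xiL := by
  classical
  intro A B hAB
  by_contra hne
  have hex : ∃ k, ¬ (k ∈ A ↔ k ∈ B) := by
    by_contra hcon
    push Not at hcon
    exact hne (Set.ext hcon)
  set k := Nat.find hex with hk
  have h1 := Nat.find_spec hex
  have h2 : ∀ j < k, j ∈ A ↔ j ∈ B := fun j hj => by
    have := Nat.find_min hex hj
    push Not at this
    exact this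
  rw [← hk] at h1
  by_cases hA : k ∈ A
  · have hB : k ∉ B := fun hB => h1 ⟨fun _ => hB, fun _ => hA⟩
    exact absurd hAB (xiL_lt k h2 hA hB).ne'
  · have hB : k ∈ B := by
      by_contra hB
      exact h1 ⟨fun h => absurd h hA, fun h => absurd h hB⟩
    exact absurd hAB (xiL_lt k (fun j hj => (h2 j hj).symm) hB hA).ne

theorem xiL_apr (A : Set ℕ) : Apr qL (xiL A) := by
  classical
  refine ⟨1, fun κ => ⟨κ, fun k hk => ?_⟩⟩
  set u : ℤ := ∑ j ∈ (Finset.range (k + 1)).filter (· ∈ A), 2 ^ (eL k - eL j) with hu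
  have hEm : ∀ j ≤ k, eL j ≤ eL k := by
    intro j hj
    obtain ⟨i, rfl⟩ := Nat.exists_eq_add_of_le hj
    exact (Nat.le_add_right _ _).trans (eL_add j i)
  have h1 : (u : ℝ) / ((qL k : ℕ) : ℝ) = ∑ j ∈ Finset.range (k + 1), trL A j := by
    rw [qL, hu]
    push_cast
    rw [Finset.sum_filter, Finset.sum_div]
    refine Finset.sum_congr rfl fun j hj => ?_
    have hj' : eL j ≤ eL k := hEm j (Nat.lt_succ_iff.1 (Finset.mem_range.1 hj))
    by_cases h : j ∈ A
    · rw [if_pos h, trL_of_mem h, one_div, inv_pow, div_eq_iff (by positivity),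
        inv_mul_eq_div, eq_div_iff (by positivity), ← pow_add, Nat.sub_add_cancel hj']
    · rw [if_neg h, trL_of_notMem h, zero_div]
  have hq2 := two_le_qL k
  have hq0 : (0 : ℝ) < ((qL k : ℕ) : ℝ) := by exact_mod_cast (by omega : 0 < qL k)
  refine ⟨u, qL k, by omega, by rw [pow_one], ?_⟩
  rw [h1, xiL_split A (k + 1), add_sub_cancel_left, abs_of_nonneg (tailL_nonneg A _)]
  refine (tailL_le A (k + 1)).trans ?_
  have h2 : 2 * (qL k) ^ κ ≤ 2 ^ eL (k + 1) := by
    rw [qL, ← pow_mul, eL_succ]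
    calc 2 * 2 ^ (eL k * κ) = 2 ^ (eL k * κ + 1) := by rw [pow_succ, mul_comm]
      _ ≤ 2 ^ ((k + 3) * eL k) := Nat.pow_le_pow_right (by norm_num) (by
          have := eL_pos k
          nlinarith)
  have h5 : 2 * ((qL k : ℕ) : ℝ) ^ κ ≤ (2 : ℝ) ^ eL (k + 1) := by exact_mod_cast h2
  rw [one_div, inv_pow, ← div_eq_mul_inv, div_le_iff₀ (by positivity), inv_mul_eq_div,
    le_div_iff₀ (by positivity)]
  exact h5

theorem trdeg_eq (L : IntermediateField ℚ ℝ) (hL : ∀ A, xiL A ∈ L) :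
    Algebra.trdeg ℚ L = Cardinal.continuum := by
  have h1 : Cardinal.mk L = Cardinal.continuum := by
    apply le_antisymm
    · rw [← Cardinal.mk_real]
      exact Cardinal.mk_le_of_injective Subtype.val_injective
    · have h2 : Cardinal.mk (Set ℕ) = Cardinal.continuum := by simp
      rw [← h2]
      refine Cardinal.mk_le_of_injective (f := fun A => ⟨_, hL A⟩) fun A B hst => ?_
      exact xiL_injective (congrArg Subtype.val hst)
  obtain ⟨ι, x, hx⟩ := exists_isTranscendenceBasis' ℚ L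
  rw [← hx.cardinalMk_eq_trdeg]
  have hle : Cardinal.mk ι ≤ Cardinal.continuum := by
    rw [← h1]
    exact Cardinal.mk_le_of_injective hx.1.injective
  refine le_antisymm hle ?_
  by_contra hlt
  push Not at hlt
  have h3 : Cardinal.mk (Algebra.adjoin ℚ (Set.range x)) < Cardinal.continuum := by
    rw [← Cardinal.mk_congr hx.1.aevalEquiv.toEquiv]
    refine (MvPolynomial.cardinalMk_le_max_lift).trans_lt ?_
    simp only [Cardinal.lift_uzero, Cardinal.mkRat, Cardinal.lift_id]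
    rw [max_lt_iff, max_lt_iff]
    exact ⟨⟨Cardinal.aleph0_lt_continuum, hlt⟩, Cardinal.aleph0_lt_continuum⟩
  have h4 : Cardinal.mk L ≤ max (Cardinal.mk (Algebra.adjoin ℚ (Set.range x))) Cardinal.aleph0 := by
    have := hx.isAlgebraic
    exact Algebra.IsAlgebraic.cardinalMk_le_max _ _
  rw [h1] at h4
  exact absurd h4 (not_le.2 (max_lt h3 Cardinal.aleph0_lt_continuum))

/-- all together: a family `x i` with a simultaneous measure -/
theorem family {ι : Type*} [Fintype ι] (x : ι → ℝ) (c : ℝ) (hc : 0 < c) (M : ℕ)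
    (hm : ∀ (a : ι → ℤ) (b : ℕ), 0 < b → ∃ i, c / (b : ℝ) ^ M ≤ |x i - a i / b|) :
    (∀ q : ℕ → ℕ, (∀ k, 2 ≤ q k) → ∃ L : IntermediateField ℚ ℝ, (∀ y, y ∈ L ↔ Apr q y) ∧
      ∃ i, x i ∉ L) ∧
    (∀ ξ : ℝ, Liouville ξ → ∃ i, x i ∉ IntermediateField.adjoin ℚ {ξ}) ∧
    ∃ L : IntermediateField ℚ ℝ, (∀ y, y ∈ L ↔ Apr qL y) ∧
      Algebra.trdeg ℚ L = Cardinal.continuum ∧ ∃ i, x i ∉ L := by
  refine ⟨fun q hq => ?_, fun ξ hξ => ?_, ?_⟩
  · obtain ⟨i, hi⟩ := not_all hq x c hc M hm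
    exact ⟨LL hq, fun y => Iff.rfl, i, hi⟩
  · obtain ⟨q, hq, hξq⟩ := liouville_apr hξ
    obtain ⟨i, hi⟩ := not_all hq x c hc M hm
    refine ⟨i, fun h => hi ?_⟩
    have h1 : IntermediateField.adjoin ℚ {ξ} ≤ LL hq := by
      rw [IntermediateField.adjoin_le_iff, Set.singleton_subset_iff]
      exact hξq
    exact h1 h
  · obtain ⟨i, hi⟩ := not_all two_le_qL x c hc M hm
    exact ⟨LL two_le_qL, fun y => Iff.rfl, trdeg_eq _ fun A => xiL_apr A, i, hi⟩

end Pool.Agent.R701.LV
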